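import Pool.Agent.Helper71.PR.Goals

/-!
# PR-E: uniform non-degeneracy with finitely many pairs of elements of `Γ`
-/

set_option autoImplicit false

namespace Pool.Agent.Helper87.PR

open Matrix Filter Topology Pool.Agent.Helper71.PR

/-- families of square matrices indexed by the `(j+1)`-subsets -/
abbrev Fam (n : ℕ) : Type := ∀ j : Fin n, Matrix (JS ((j : ℕ) + 1) n) (JS ((j : ℕ) + 1) n) ℝ

def FF {n : ℕ} (A B : Mt n) (h h' : Mt n) (Y : Fam n) (j : Fin n) : ℝ :=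
  (cp ((j : ℕ) + 1) A * cp ((j : ℕ) + 1) h * Y j * cp ((j : ℕ) + 1) h' * cp ((j : ℕ) + 1) B)
    (bd j j le_rfl) (bd j j le_rfl)

theorem FF_cont {n : ℕ} (A B : Mt n) (h h' : Mt n) (j : Fin n) :
    Continuous (fun Y : Fam n => FF A B h h' Y j) := by
  unfold FF
  have h1 : Continuous (fun Y : Fam n => cp ((j : ℕ) + 1) A * cp ((j : ℕ) + 1) h * Y j *
      cp ((j : ℕ) + 1) h' * cp ((j : ℕ) + 1) B) := by
    refine Continuous.matrix_mul (Continuous.matrix_mul (Continuous.matrix_mul continuous_const ?_)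
      continuous_const) continuous_const
    exact continuous_apply j
  exact h1.matrix_elem _ _

theorem n1_cont {ι : Type} [Fintype ι] : Continuous (fun X : Matrix ι ι ℝ => n1 X) := by
  unfold n1
  refine continuous_finsetSum _ fun a _ => continuous_finsetSum _ fun b _ => ?_
  exact (continuous_id.matrix_elem a b).abs

theorem n1_smul {ι : Type} [Fintype ι] (c : ℝ) (X : Matrix ι ι ℝ) : n1 (c • X) = |c| * n1 X := by
  unfold n1
  simp only [Matrix.smul_apply, smul_eq_mul, abs_mul, Finset.mul_sum]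

theorem n1_nonneg {ι : Type} [Fintype ι] (X : Matrix ι ι ℝ) : 0 ≤ n1 X :=
  Finset.sum_nonneg fun _ _ => Finset.sum_nonneg fun _ _ => abs_nonneg _

theorem n1_ne {ι : Type} [Fintype ι] (X : Matrix ι ι ℝ) (a b : ι) (h : X a b ≠ 0) : 0 < n1 X := by
  have h1 : |X a b| ≤ ∑ b, |X a b| :=
    Finset.single_le_sum (f := fun b => |X a b|) (fun _ _ => abs_nonneg _) (Finset.mem_univ b)
  have h2 : ∑ b, |X a b| ≤ n1 X :=
    Finset.single_le_sum (f := fun a => ∑ b, |X a b|)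
      (fun _ _ => Finset.sum_nonneg fun _ _ => abs_nonneg _) (Finset.mem_univ a)
  have h3 : 0 < |X a b| := abs_pos.2 h
  linarith

theorem n1_compact {ι : Type} [Fintype ι] : IsCompact {X : Matrix ι ι ℝ | n1 X = 1} := by
  have hc : IsCompact (Set.pi Set.univ (fun _ : ι => Set.pi Set.univ
      (fun _ : ι => Set.Icc (-1 : ℝ) 1))) :=
    isCompact_univ_pi fun _ => isCompact_univ_pi fun _ => isCompact_Icc
  have hcl : IsClosed {X : Matrix ι ι ℝ | n1 X = 1} := isClosed_eq n1_cont continuous_const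
  refine IsCompact.of_isClosed_subset hc hcl ?_
  intro X hX
  have hX1 : n1 X = 1 := hX
  intro a _ b _
  have h1 : |X a b| ≤ ∑ b, |X a b| :=
    Finset.single_le_sum (f := fun b => |X a b|) (fun _ _ => abs_nonneg _) (Finset.mem_univ b)
  have h2 : ∑ b, |X a b| ≤ n1 X :=
    Finset.single_le_sum (f := fun a => ∑ b, |X a b|)
      (fun _ _ => Finset.sum_nonneg fun _ _ => abs_nonneg _) (Finset.mem_univ a)
  have h3 : |X a b| ≤ 1 := by linarith
  exact abs_le.1 h3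

theorem K_compact (n : ℕ) : IsCompact {Y : Fam n | ∀ j, n1 (Y j) = 1} := by
  have h : {Y : Fam n | ∀ j, n1 (Y j) = 1} = Set.pi Set.univ (fun j => {X | n1 X = 1}) := by
    ext Y
    simp [Set.mem_pi]
  rw [h]
  exact isCompact_univ_pi fun j => n1_compact

/-- a row of an invertible matrix is not zero -/
theorem row_ne {ι : Type} [Fintype ι] [DecidableEq ι] (X : Matrix ι ι ℝ) (hX : X.det ≠ 0) (a : ι) :
    (fun b => X a b) ≠ 0 := by
  intro h
  exact hX (Matrix.det_eq_zero_of_row_eq_zero a fun b => congrFun h b)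

theorem col_ne {ι : Type} [Fintype ι] [DecidableEq ι] (X : Matrix ι ι ℝ) (hX : X.det ≠ 0) (b : ι) :
    (fun a => X a b) ≠ 0 := by
  intro h
  exact hX (Matrix.det_eq_zero_of_column_eq_zero b fun a => congrFun h a)

theorem nondeg (hN : G_N) (n : ℕ) (hn : 1 ≤ n) (Γ : Subgroup (SLn n)) (hZ : ZD Γ) (A B : Mt n)
    (hA : A.det ≠ 0) (hB : B.det ≠ 0) (Y : Fam n) (hY : ∀ j, n1 (Y j) = 1) :
    ∃ h ∈ Γ, ∃ h' ∈ Γ, ∀ j, FF A B h.1 h'.1 Y j ≠ 0 := by
  have hI : ∀ j : Fin n, ∃ I : JS ((j : ℕ) + 1) n, (fun K => Y j I K) ≠ 0 := by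
    intro j
    by_contra hcon
    push Not at hcon
    have h0 : n1 (Y j) = 0 := by
      unfold n1
      refine Finset.sum_eq_zero fun a _ => Finset.sum_eq_zero fun b _ => ?_
      rw [show Y j a b = 0 from congrFun (hcon a) b, abs_zero]
    rw [hY j] at h0
    exact one_ne_zero h0
  choose I hI using hI
  obtain ⟨h', hh', e'⟩ := hN n hn Γ hZ (Fin n) (fun j => (j : ℕ) + 1) (fun j K => Y j (I j) K)
    (fun j a => cp ((j : ℕ) + 1) B a (bd j j le_rfl)) hI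
    (fun j => col_ne _ (cp_det_ne _ B hB) _)
  have hz : ∀ j : Fin n, (Y j *ᵥ (cp ((j : ℕ) + 1) h'.1 *ᵥ
      (fun a => cp ((j : ℕ) + 1) B a (bd j j le_rfl)))) ≠ 0 := by
    intro j hcon
    exact e' j (congrFun hcon (I j))
  obtain ⟨h, hh, e⟩ := hN n hn Γ hZ (Fin n) (fun j => (j : ℕ) + 1)
    (fun j b => cp ((j : ℕ) + 1) A (bd j j le_rfl) b)
    (fun j => Y j *ᵥ (cp ((j : ℕ) + 1) h'.1 *ᵥ
      (fun a => cp ((j : ℕ) + 1) B a (bd j j le_rfl))))
    (fun j => row_ne _ (cp_det_ne _ A hA) _) hz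
  refine ⟨h, hh, h', hh', fun j => ?_⟩
  have hj := e j
  intro hF
  apply hj
  rw [← hF]
  unfold FF
  rw [Matrix.mul_assoc, Matrix.mul_assoc, Matrix.mul_assoc]
  rw [Matrix.mul_apply']
  congr 1

theorem FF_smul {n : ℕ} (A B : Mt n) (h h' x : Mt n) (j : Fin n) (s : Fin n → ℝ) :
    FF A B h h' (fun j => s j • cp ((j : ℕ) + 1) x) j = s j * ld j (A * h * x * h' * B) := by
  unfold FF ld
  rw [cp_mul, cp_mul, cp_mul, cp_mul]
  simp only [Matrix.mul_smul, Matrix.smul_mul, Matrix.smul_apply, smul_eq_mul]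

theorem e_lem (hN : G_N) : G_E := by
  intro n hn Γ hZ A B hA hB
  classical
  let T : Type := {p : (SLn n × SLn n) × ℕ // p.1.1 ∈ Γ ∧ p.1.2 ∈ Γ}
  let U : T → Set (Fam n) := fun p =>
    {Y | ∀ j, (1 : ℝ) / ((p.1.2 : ℝ) + 1) < |FF A B p.1.1.1.1 p.1.1.2.1 Y j|}
  have hUo : ∀ p : T, IsOpen (U p) := by
    intro p
    have : U p = ⋂ j : Fin n,
        {Y | (1 : ℝ) / ((p.1.2 : ℝ) + 1) < |FF A B p.1.1.1.1 p.1.1.2.1 Y j|} := by
      ext Y
      simp [U]
    rw [this]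
    exact isOpen_iInter_of_finite fun j =>
      isOpen_lt continuous_const (FF_cont A B _ _ j).abs
  have hcov : {Y : Fam n | ∀ j, n1 (Y j) = 1} ⊆ ⋃ p, U p := by
    intro Y hY
    obtain ⟨h, hh, h', hh', hF⟩ := nondeg hN n hn Γ hZ A B hA hB Y hY
    have : ∃ k : ℕ, ∀ j, (1 : ℝ) / ((k : ℝ) + 1) < |FF A B h.1 h'.1 Y j| := by
      have hj : ∀ j : Fin n, ∃ k : ℕ, (1 : ℝ) / ((k : ℝ) + 1) < |FF A B h.1 h'.1 Y j| :=
        fun j => exists_nat_one_div_lt (abs_pos.2 (hF j))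
      choose k hk using hj
      refine ⟨Finset.univ.sup k, fun j => lt_of_le_of_lt ?_ (hk j)⟩
      apply one_div_le_one_div_of_le
      · positivity
      · have : k j ≤ Finset.univ.sup k := Finset.le_sup (Finset.mem_univ j)
        have : (k j : ℝ) ≤ ((Finset.univ.sup k : ℕ) : ℝ) := by exact_mod_cast this
        linarith
    obtain ⟨k, hk⟩ := this
    exact Set.mem_iUnion.2 ⟨⟨((h, h'), k), hh, hh'⟩, hk⟩
  obtain ⟨t, ht⟩ := (K_compact n).elim_finite_subcover U hUo hcov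
  refine ⟨t.image (fun p => p.1.1), 1 / (((t.sup fun p => p.1.2 : ℕ) : ℝ) + 1), by positivity,
    ?_, ?_⟩
  · intro e he
    obtain ⟨p, _, rfl⟩ := Finset.mem_image.1 he
    exact p.2
  · intro x
    have hx : x.1.det ≠ 0 := by rw [x.2]; exact one_ne_zero
    have hpos : ∀ j : Fin n, 0 < n1 (cp ((j : ℕ) + 1) x.1) := by
      intro j
      have hr := row_ne _ (cp_det_ne ((j : ℕ) + 1) x.1 hx) (bd j j le_rfl)
      obtain ⟨b, hb⟩ := Function.ne_iff.1 hr
      exact n1_ne _ (bd j j le_rfl) b hb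
    have hmem : (fun j : Fin n => (n1 (cp ((j : ℕ) + 1) x.1))⁻¹ • cp ((j : ℕ) + 1) x.1) ∈
        {Y : Fam n | ∀ j, n1 (Y j) = 1} := by
      intro j
      show n1 ((n1 (cp ((j : ℕ) + 1) x.1))⁻¹ • cp ((j : ℕ) + 1) x.1) = 1
      rw [n1_smul, abs_of_pos (inv_pos.2 (hpos j)), inv_mul_cancel₀ (hpos j).ne']
    have h1 := ht hmem
    simp only [Set.mem_iUnion] at h1
    obtain ⟨p, hp, hU⟩ := h1
    refine ⟨p.1.1, Finset.mem_image_of_mem _ hp, fun j => ?_⟩
    have h2 : (1 : ℝ) / ((p.1.2 : ℝ) + 1) < |FF A B p.1.1.1.1 p.1.1.2.1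
      (fun j : Fin n => (n1 (cp ((j : ℕ) + 1) x.1))⁻¹ • cp ((j : ℕ) + 1) x.1) j| := hU j
    rw [FF_smul, abs_mul, abs_of_pos (inv_pos.2 (hpos j))] at h2
    have h3 : 1 / (((t.sup fun p => p.1.2 : ℕ) : ℝ) + 1) ≤ (1 : ℝ) / ((p.1.2 : ℝ) + 1) := by
      apply one_div_le_one_div_of_le
      · positivity
      · have : p.1.2 ≤ (t.sup fun p => p.1.2) := Finset.le_sup (f := fun p : T => p.1.2) hp
        have : (p.1.2 : ℝ) ≤ ((t.sup fun p => p.1.2 : ℕ) : ℝ) := by exact_mod_cast this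
        linarith
    have h4 : 1 / (((t.sup fun p => p.1.2 : ℕ) : ℝ) + 1) ≤
        (n1 (cp ((j : ℕ) + 1) x.1))⁻¹ * |ld j (A * p.1.1.1.1 * x.1 * p.1.1.2.1 * B)| :=
      h3.trans h2.le
    have h5 := mul_le_mul_of_nonneg_right h4 (hpos j).le
    have h6 : (n1 (cp ((j : ℕ) + 1) x.1))⁻¹ * |ld j (A * p.1.1.1.1 * x.1 * p.1.1.2.1 * B)| *
        n1 (cp ((j : ℕ) + 1) x.1) = |ld j (A * p.1.1.1.1 * x.1 * p.1.1.2.1 * B)| := by
      have := (hpos j).ne'
      field_simp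
    rw [h6] at h5
    exact h5

end Pool.Agent.Helper87.PR
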